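import Pool.Agent.Lib.MP_eadfc1_pr.AwMain
import Pool.Agent.Lib.MP_eadfc1_pr.AwLower

namespace Pool.Agent.Results.MP_eadfc1_pr.ExactOrder

open MeasureTheory Pool.Agent.Lib.MP_eadfc1_pr

/-- The largest probability, over all Markov chains on `n` states and all states `x`, `y`, that
the hitting time of `y` lies in `[t, t + l]` is of order `min (1, (n + l √n) / t)`, uniformly in
`n ≥ 2`, `t ≥ 1` and `l ≥ 0`. -/
theorem result :
    ∃ c C : ℝ, 0 < c ∧ ∀ n t l : ℕ, 2 ≤ n → 0 < t →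
      sSup {r : ℝ | ∃ (P : Matrix (Fin n) (Fin n) ℝ) (x y : Fin n)
        (Ω : Type) (_ : MeasurableSpace Ω) (μ : Measure Ω) (X : ℕ → Ω → Fin n),
        (∀ a b, 0 ≤ P a b) ∧ (∀ a, ∑ b, P a b = 1) ∧
        IsProbabilityMeasure μ ∧ (∀ k, Measurable (X k)) ∧
        (∀ (k : ℕ) (w : ℕ → Fin n), μ.real {ω | ∀ i ≤ k, X i ω = w i}
          = (if w 0 = x then 1 else 0) * ∏ i ∈ Finset.range k, P (w i) (w (i + 1))) ∧
        r = μ.real {ω | (t : WithTop ℕ) ≤ hittingAfter X {y} 0 ω ∧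
          hittingAfter X {y} 0 ω ≤ ((t + l : ℕ) : WithTop ℕ)}}
      ∈ Set.Icc (c * min 1 ((n + l * √n) / t)) (C * min 1 ((n + l * √n) / t)) := by
  obtain ⟨C, hC, h⟩ := Up.all_windows
  refine ⟨1 / 320, C, by norm_num, fun n t l hn ht => ?_⟩
  change sSup {r : ℝ | Lo.Att n t l r} ∈ _
  have hb : ∀ r ∈ {r : ℝ | Lo.Att n t l r}, r ≤ C * min 1 ((n + l * √n) / t : ℝ) := by
    rintro r ⟨P, x, y, Ω, m, μ, X, h1, h2, h3, -, h5, rfl⟩
    rw [mul_min_of_nonneg _ _ (by linarith), mul_one, ← mul_div_assoc]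
    exact le_min (measureReal_le_one.trans hC) (h n P x y t l Ω m μ X h1 h2 h3 h5 ht)
  obtain ⟨r, h1, h2⟩ := Lo.lower n t l hn ht
  exact ⟨h2.trans (le_csSup ⟨_, hb⟩ h1), csSup_le ⟨r, h1⟩ hb⟩

/-- The negated form of Q1 as a consequence of `result`: take `n = l = s ^ 2` and `t = s ^ 3`. -/
theorem q1 (C : ℝ) :
    ∃ (n : ℕ) (P : Matrix (Fin n) (Fin n) ℝ) (x y : Fin n) (t : ℕ)
      (Ω : Type) (_ : MeasurableSpace Ω) (μ : Measure Ω) (X : ℕ → Ω → Fin n),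
      (∀ a b, 0 ≤ P a b) ∧ (∀ a, ∑ b, P a b = 1) ∧
      IsProbabilityMeasure μ ∧ (∀ k, Measurable (X k)) ∧
      (∀ (k : ℕ) (w : ℕ → Fin n), μ.real {ω | ∀ i ≤ k, X i ω = w i}
        = (if w 0 = x then 1 else 0) * ∏ i ∈ Finset.range k, P (w i) (w (i + 1))) ∧
      n < t ∧
      C * n / t < μ.real {ω | (t : WithTop ℕ) ≤ hittingAfter X {y} 0 ω ∧
        hittingAfter X {y} 0 ω ≤ ((t + n : ℕ) : WithTop ℕ)} := by
  obtain ⟨c, C', hc, h⟩ := result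
  obtain ⟨s, hs⟩ := exists_nat_gt (max (C / c) 2)
  have s2 : (2 : ℝ) < s := (le_max_right _ _).trans_lt hs
  have s3 : 2 < s := by exact_mod_cast s2
  have s4 : C < s * c := (div_lt_iff₀ hc).1 ((le_max_left _ _).trans_lt hs)
  have h1 := (h (s ^ 2) (s ^ 3) (s ^ 2) (by nlinarith) (by positivity)).1
  have e : (1 : ℝ) ≤ (((s ^ 2 : ℕ) : ℝ) + ((s ^ 2 : ℕ) : ℝ) * √((s ^ 2 : ℕ) : ℝ))
      / ((s ^ 3 : ℕ) : ℝ) := by
    push_cast
    rw [Real.sqrt_sq (by linarith), le_div_iff₀ (by positivity)]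
    nlinarith [sq_nonneg (s : ℝ)]
  rw [min_eq_left e, mul_one] at h1
  have h2 : C * ((s ^ 2 : ℕ) : ℝ) / ((s ^ 3 : ℕ) : ℝ) < c := by
    push_cast
    rw [div_lt_iff₀ (by positivity)]
    nlinarith [mul_lt_mul_of_pos_right s4 (show (0 : ℝ) < (s : ℝ) ^ 2 by positivity)]
  obtain ⟨r, ⟨P, x, y, Ω, m, μ, X, a1, a2, a3, a4, a5, rfl⟩, hr⟩ :=
    exists_lt_of_lt_csSup (Set.nonempty_iff_ne_empty.2 fun k => by
      rw [k, Real.sSup_empty] at h1; linarith) (h2.trans_le h1)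
  exact ⟨_, P, x, y, _, Ω, m, μ, X, a1, a2, a3, a4, a5,
    Nat.pow_lt_pow_right (by omega) (by norm_num), hr⟩

/-- The bound `C n √n / t` for the window of Q1 as a consequence of `result`: take `l = n`. -/
theorem corrected :
    ∃ C : ℝ, ∀ (n : ℕ) (P : Matrix (Fin n) (Fin n) ℝ) (x y : Fin n) (t : ℕ)
      (Ω : Type) (_ : MeasurableSpace Ω) (μ : Measure Ω) (X : ℕ → Ω → Fin n),
      (∀ a b, 0 ≤ P a b) → (∀ a, ∑ b, P a b = 1) →
      IsProbabilityMeasure μ → (∀ k, Measurable (X k)) →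
      (∀ (k : ℕ) (w : ℕ → Fin n), μ.real {ω | ∀ i ≤ k, X i ω = w i}
        = (if w 0 = x then 1 else 0) * ∏ i ∈ Finset.range k, P (w i) (w (i + 1))) →
      2 ≤ n → n < t →
      μ.real {ω | (t : WithTop ℕ) ≤ hittingAfter X {y} 0 ω ∧
        hittingAfter X {y} 0 ω ≤ ((t + n : ℕ) : WithTop ℕ)} ≤ C * n * √n / t := by
  obtain ⟨c, C, -, h⟩ := result
  refine ⟨2 * |C|, fun n P x y t Ω m μ X a1 a2 a3 a4 a5 hn ht => ?_⟩
  have n1 : (1 : ℝ) ≤ n := by exact_mod_cast (by omega : 1 ≤ n)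
  have s1 : 1 ≤ √(n : ℝ) := Real.one_le_sqrt.2 n1
  refine le_trans (le_trans (le_csSup ⟨1, ?_⟩ ?_) (h n t n hn (by omega)).2) ?_
  · rintro r ⟨P, x, y, Ω, m, μ, X, -, -, a3, -, -, rfl⟩
    exact measureReal_le_one
  · exact ⟨P, x, y, Ω, m, μ, X, a1, a2, a3, a4, a5, rfl⟩
  · calc C * min 1 ((n + n * √n) / t : ℝ) ≤ |C| * ((n * √n + n * √n) / t) := by
          refine mul_le_mul (le_abs_self C) ((min_le_right _ _).trans ?_)
            (le_min zero_le_one (by positivity)) (abs_nonneg C)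
          gcongr
          exact le_mul_of_one_le_right (by linarith) s1
      _ = _ := by ring

end Pool.Agent.Results.MP_eadfc1_pr.ExactOrder
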